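import Pool.Agent.N110.IM.Img
import Pool.Agent.N110.IM.Defs
import Pool.Agent.N110.RK.Stat
import Pool.Agent.R887.PsE
import Pool.Agent.R887.CorI
import Pool.Agent.R887.Exc

/-!
# The degrees of multi-valued rational maps bound the numerical dimension

Let `f` be a dominant rational self-map of a projective manifold `X`, with dynamical degrees
`λ 0, ..., λ n`. If `λ (n - j) < λ n` then the Kodaira dimension of `X` is less than `j` (Nakayama
and Zhang, Dinh, Nguyen and Truong). The abundance conjecture predicts that also the numerical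
dimension of `K_X` is less than `j`, and this is proved here, more generally for multi-valued maps
from a fixed variety or from a sequence of pairs, and for pairs `(X, Δ)`.
-/

set_option autoImplicit false

open FF Pool.Agent.W602.GT Pool.Agent.Y172 Pool.Agent.R887 Pool.Agent.N110

namespace Pool.Agent.Results.MP_c2a5fc_ag.DegreeGrowthH41

section

variable {K : Type} [Field K] [Algebra ℂ K] {N : ℕ}

/-- There are a normal projective variety `X'` of dimension `n`, with generic point `y'`, and a finite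
set `S` of prime divisors of `X'` such that for all `ε > 0` there is a multi-valued rational map
`X' ← X'' → X`: a variety `X''` with a generically finite rational map `p` to `X'`, unramified over
the prime divisors which are not in `S`, and a dominant rational map `f` to `X` such that the pull
back of `K_X + Δ` is at most `K_X''` over these prime divisors, and such that the intersection number
`(f^* H)^(n-j) (p^* H')^j` is at most `ε deg f`, `H` and `H'` being hyperplane sections of `X` and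
`X'`. For instance, let `X' = X`, `Δ = 0`, let `X` be smooth, and let `X''` be the graph of the
`k`-th iterate of a dominant rational self-map of `X` with dynamical degrees `λ (n - j) < λ n`. -/
def FixedSource (y : Fin (N + 1) → K) (n : ℕ) (Δ : Place ℂ K → ℚ) (j : ℕ) : Prop :=
  ∃ (K' : Type) (_ : Field K') (_ : Algebra ℂ K') (N' : ℕ) (y' : Fin (N' + 1) → K')
    (S : Set (Place ℂ K')), NormalModel y' ∧ Algebra.trdeg ℂ K' = n ∧ S.Finite ∧
    ∀ ε : ℝ, 0 < ε → ∃ (L : Type) (_ : Field L) (_ : Algebra ℂ L) (φ : K →ₐ[ℂ] L)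
      (ψ : K' →ₐ[ℂ] L), FiniteDimensional ψ.fieldRange L ∧ UnramifiedOutside ψ y' S ∧
        MultiPullBackLe φ ψ y n Δ y' S ∧ MultiDegreeLe φ ψ y y' (n - j) j ε

/-- For all `ε > 0` there are a pair `(X', Δ')`, `Δ' ≥ 0`, of dimension `n`, with positive degree
`⟨K_X' + Δ'⟩ · H' ^ (n - 1)` at most `μ`, and a multi-valued rational map `X' ← X'' → X`: a variety
`X''` with a generically finite rational map `p` to `X'`, unramified over the prime divisors `P` with
`Δ' P < 1`, and a dominant rational map `f` to `X` such that the pull back of `K_X + Δ` is at most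
`K_X''` over these prime divisors, and such that the intersection number
`(f^* H)^(n-j) (p^* H')^j` is at most `c deg f`, where `c μ^j ≤ ε`. -/
def VaryingSource (y : Fin (N + 1) → K) (n : ℕ) (Δ : Place ℂ K → ℚ) (j : ℕ) : Prop :=
  ∀ ε : ℝ, 0 < ε → ∃ (K' L : Type) (_ : Field K') (_ : Algebra ℂ K') (_ : Field L)
    (_ : Algebra ℂ L) (N' : ℕ) (y' : Fin (N' + 1) → K') (Δ' : Place ℂ K' → ℚ) (φ : K →ₐ[ℂ] L)
    (ψ : K' →ₐ[ℂ] L) (μ c : ℝ), NormalModel y' ∧ Algebra.trdeg ℂ K' = n ∧ Effective y' Δ' ∧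
      0 ≤ μ ∧ PositiveProductLe y' n Δ' 1 μ ∧ FiniteDimensional ψ.fieldRange L ∧
      UnramifiedOutside ψ y' {P | 1 ≤ Δ' P} ∧ MultiPullBackLe φ ψ y n Δ y' {P | 1 ≤ Δ' P} ∧
      MultiDegreeLe φ ψ y y' (n - j) j c ∧ c * μ ^ j ≤ ε

theorem numDimLt_of_maps {n : ℕ} {y : Fin (N + 1) → K} (hy : NormalModel y)
    (hn : Algebra.trdeg ℂ K = n) (hn0 : 0 < n) {Δ : Place ℂ K → ℚ} (hLC : LogCanonical y n Δ)
    {j : ℕ} (hj : j ≤ n) (h : FixedSource y n Δ j ∨ VaryingSource y n Δ j) : NumDimLt y n Δ j := by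
  refine PositiveProductLe.numDimLt (PositiveProductLe.of_forall fun ε hε => ?_)
  rcases h with ⟨K', _, _, N', y', S, hy', hn', hS, h⟩ | h
  · obtain ⟨C, hC, h1⟩ := one_map_lc hy' hn' hn0 hS
    have hC0 : (0 : ℝ) < (C : ℝ) ^ j := pow_pos (by exact_mod_cast hC) j
    obtain ⟨L, _, _, φ, ψ, h2, h3, h4, h5⟩ := h (ε / C ^ j) (div_pos hε hC0)
    refine ⟨_, ?_, (h1 hy hn hLC φ ψ h2 h3 h4 j _ hj h5).2⟩
    rw [div_mul_cancel₀ _ hC0.ne', zero_add]
  · obtain ⟨K', L, _, _, _, _, N', y', Δ', φ, ψ, μ, c, hy', hn', hΔ', hμ, hpp, h2, h3, h4, h5, h6⟩ :=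
      h ε hε
    exact ⟨_, by linarith, (psef_degree_le hy' hn' hn0 hΔ' hμ hpp hy hn hLC φ ψ h2 h3 h4 hj h5).2⟩

end

/-- Let `(X₁, Δ₁)` be a log canonical pair of dimension `n ≥ 1`, and `1 ≤ j ≤ n`. Suppose that there
are multi-valued rational maps to `X₁`, from a fixed variety or from a sequence of pairs, whose
mixed degrees of index `(n - j, j)` are arbitrarily small compared with their topological degrees
(`FixedSource`, `VaryingSource`). Let `(X, Δ)` be a pair, `Δ ≥ 0`, which is dominated by `(X₁, Δ₁)`: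
there is a dominant rational map `X₁ ⇢ X`, generically finite, given by the homomorphism `π` of the
function fields, such that the pull back of `K_X + Δ` is at most `K_X₁ + Δ₁` over the prime divisors
of `X₁`; for instance `(X, Δ) = (X₁, Δ₁)`.

(1) The numerical dimension of `K_X + Δ` is less than `j`, and so is the Kodaira dimension. If the
Kodaira dimension is at least `j - 1` then the Kodaira dimension and the numerical dimension of
`K_X + Δ` are equal.

(2) If `A` is a `ℚ`-divisor such that `K_X + Δ - A` is pseudo-effective, then the Iitaka dimension of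
`A` is less than `j`.

(3) Let `j = 1` and let `m (K_X + Δ)` have a section `ω ≠ 0`, `m ≥ 1`. Then the Kodaira dimension and
the numerical dimension of `K_X + Δ`, also the numerical dimension which is defined by the number of
the sections of `m (K_X + Δ) + A`, are zero. If moreover `K_X + Δ` is nef, then `ω` has no zeros:
`m (K_X + Δ)` is trivial. -/
theorem result
    {K K₁ : Type} [Field K] [Algebra ℂ K] [Field K₁] [Algebra ℂ K₁] {N N₁ n : ℕ}
    {y : Fin (N + 1) → K} {y₁ : Fin (N₁ + 1) → K₁} (hy : NormalModel y) (hy₁ : NormalModel y₁)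
    (hn : Algebra.trdeg ℂ K = n) (hn₁ : Algebra.trdeg ℂ K₁ = n) (hn0 : 0 < n)
    {Δ₁ : Place ℂ K₁ → ℚ} (hLC : LogCanonical y₁ n Δ₁) {j : ℕ} (hj1 : 1 ≤ j) (hj : j ≤ n)
    (hmaps : FixedSource y₁ n Δ₁ j ∨ VaryingSource y₁ n Δ₁ j)
    {Δ : Place ℂ K → ℚ} (hΔ : Effective y Δ) (π : K →ₐ[ℂ] K₁)
    (hπ : IM.ImagePullLe π y n Δ y₁ Δ₁) :
    (NumDimLt y n Δ j ∧ ¬ KappaGe y n Δ j ∧ (KappaGe y n Δ (j - 1) → Abundant y n Δ)) ∧
    (∀ A : Place ℂ K → ℚ, PseudoEffective y n (Δ - A) → ¬ IitakaGe y A j) ∧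
    (j = 1 → ∀ m : ℕ, 1 ≤ m → ∀ ω : (Fin n → Derivation ℂ K K) → K, IsSection y n m (m • Δ) ω →
      ω ≠ 0 → (kodairaDim y n Δ = ((0 : ℕ) : WithBot ℕ) ∧
        ∀ A, Effective y A → Integral y A → numericalDim y n Δ A = ((0 : ℕ) : EReal)) ∧
      (LogNef y n Δ → ∀ P, IsPrimeDivisor y P → OrdEq P ω (-(m * Δ P)))) := by
  have h2 := IM.numDimLt_img hy hy₁ hn hn₁ π hπ hj (numDimLt_of_maps hy₁ hn₁ hn0 hLC hj hmaps)
  refine ⟨⟨h2, ?_, fun h => ⟨j - 1, h, by rwa [show j - 1 + 1 = j by omega]⟩⟩,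
    fun A hA => iitaka_lt hy hn hj h2 hA, ?_⟩
  · rintro ⟨m, hm, ω, E, hω, h0, hind⟩
    exact kappa_lt hy hn hj h2 hm hω h0 hind
  · rintro rfl m hm ω hω hω0
    exact ⟨abundance_zero hy hn hn0 hΔ h2 hm hω hω0,
      fun hnef P hP => nef_trivialP hy hn hn0 h2 hnef hm hω hω0 P hP⟩

end Pool.Agent.Results.MP_c2a5fc_ag.DegreeGrowthH41
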