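import Pool.Agent.V7H74.Simple

/-! Abundance for quotients of products of a variety and curves by groups which may contain
reflections: elements which exchange two equal curves and fix everything else. -/

set_option autoImplicit false
set_option linter.overlappingInstances false

universe u

open FF IntermediateField Pool.Agent.W619.PQ Pool.Agent.W619.TW Pool.Agent.W619.Y
  Pool.Agent.V7H74

namespace Pool.Agent.Results.MP_c2a5fc_ag.ReflectionAbundanceH74

/-- Let `Y` be a projective variety of dimension `d` with function field `M` (for instance a
point), `F i` (`i < n`) the function fields of irrational curves `C i`, `L` the function field of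
the product `Z` of `Y` and the curves, `G` a finite group of automorphisms of `L` which permutes the
curves through `σ`, and `X` a projective manifold birational to `Z / G`. Assume `DetCondPos`: the
elements of `G` with fixed points on `Y` have age at least `1`, corrected by effective divisors
`ν i` on the curves, by the action on `Y`, and, for the elements which permute given functions
`T i j` on the curves, by the order of vanishing of the determinant of these functions; here
`N K - ν i - c μ i` is positive on the curves of genus at least two and `ℚ`-effective on the
elliptic curves, where `μ i` bounds the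
poles of the functions `T i j`. For instance let `G` act on `Y` and, faithfully, on `C ^ n` by
permutations of the factors, where `n` is less than the genus of the curve `C`. If the Kodaira
dimension of `Y` is at least `a` and its
numerical dimension is at most `a`, then the Kodaira dimension of `X` is at least `a + b` and its
numerical dimension is at most `a + b`, where `b` is the number of the curves of genus at least
two. -/
theorem result {L : Type u} [Field L] [Algebra ℂ L] (d n : ℕ)
    (hn : Algebra.trdeg ℂ L = (d + n : ℕ))
    (M : IntermediateField ℂ L) [Algebra.EssFiniteType ℂ M] (hM : Algebra.trdeg ℂ M = d)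
    (F : Fin n → IntermediateField ℂ L) (hF : ∀ i, IsFF ℂ (F i))
    (hsup : M ⊔ (⨆ i, F i) = ⊤)
    (G : Subgroup (L ≃ₐ[ℂ] L)) [Finite G] (σ : G →* Equiv.Perm (Fin n))
    (hσ : ∀ (g : G) i, ∀ z ∈ F i, (g : L ≃ₐ[ℂ] L) z ∈ F (σ g i))
    (h : DetCondPos M G σ F) (hirr : ∀ i, ¬ ∃ t : F i, ℂ⟮t⟯ = ⊤) (a : ℕ)
    (ha : KodTr ℂ M d a) (ha' : NumLe ℂ M d (fun _ => False) a) :
    KodTr ℂ (fixedField G) (d + n) (a + {i | ¬ IsElliptic (F i)}.ncard) ∧
    KodGe ℂ (fixedField G) (d + n) (fun _ => False) (a + {i | ¬ IsElliptic (F i)}.ncard) ∧
    NumLe ℂ (fixedField G) (d + n) (fun _ => False) (a + {i | ¬ IsElliptic (F i)}.ncard) := by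
  obtain ⟨h1, h2⟩ := abN d n hn M hM F (Pool.Agent.W619.Y.alg_of_top M F hsup) G σ hσ h.num
  exact ⟨(h1 hirr a ha).1, (h1 hirr a ha).2, (h2 hsup).1 hirr a ha'⟩

end Pool.Agent.Results.MP_c2a5fc_ag.ReflectionAbundanceH74
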