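import Pool.Agent.V7H74.ImgBir

/-!
# Abundance for varieties dominated by a product of varieties: a counting condition for the fibres

Let `V = X 0 × ... × X k`, where the `X i` are smooth projective varieties over `ℂ` of dimension
`m i`, and let `V ⇢ W` be a dominant rational map of finite degree to a variety `W`. It need not be
related to the product structure, and it need not be the quotient by a group. Let `s i` be numbers
such that the canonical forms of `X i` separate `s i` general points: for some nonempty open subset
`U` of `X i` any `s i` different points of `U` impose independent conditions on `H⁰(X i, K)`. For a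
curve of gonality `γ` one can take `s i = γ - 1`, and for a smooth hypersurface of degree `d` in
projective space `s i = d - m i - 1`.

For a set `S` of factors let `r(S)` be the number of points of a general fibre of `V ⇢ W` which have
the same coordinates in the factors in `S` as a given one. So `r(∅)` is the degree, and
`r(S) = 1` if `S` contains all factors.

**Theorem.** Let all `s i` be positive. Suppose that for all nonempty sets `A` of factors, except
possibly the sets `A = {j}` where `X j` is a curve,

`2 r(Aᶜ) ≤ 1 + ∑ i ∈ A, (s i - 1)`.

Then:

* `κ(W) = -∞` if and only if `K_W` is not pseudo-effective, if and only if `W` is uniruled;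
* `κ(W) = dim W - 1` if and only if `W` is not uniruled, but covered by elliptic curves;
* `κ(W) = dim W` if and only if the canonical map of `W`, given by `H⁰(K_W)`, is generically finite,
  if and only if `W` is not covered by rational or elliptic curves;
* the Iitaka dimension of `K_W` is attained by the canonical map;
* if there are no exceptions, i.e. if also `2 r({j}ᶜ) ≤ s j` for the curves `X j`, then `W` is of
  general type and its canonical map is birational onto its image.

So `κ(W)` is `-∞`, `dim W - 1` or `dim W`. If `K_M` is nef for a projective manifold `M` which is
birational to `W` then `κ(M) ≥ dim M - 1`, and hence `κ(M) = ν(M)`: if `ν(M) = dim M` then `K_M` is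
big (this remark is not part of the Lean proof).

For example, let the `X i` be `n ≥ 2` curves of gonality at least `γ`, and suppose that different
points of the general fibre have different coordinates in every factor. Then the condition
only means that `2 deg(V ⇢ W) ≤ n (γ - 2) + 1`. So the degree may grow linearly with the number of
factors. The start result `MP_c2a5fc_ag.ProductsAndEllipticCurves` needs that, up to one factor, the
number of points of each factor below the general fibre is less than `γ / 2`.

Some condition is necessary: let `X 0` be a cyclic covering of the projective line of prime degree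
`p` with many branch points, so its gonality is `p` and `s 0 = p - 1`, and let `X 1` be an elliptic
curve, `s 1 = 1`, on which the cyclic group `G` acts by translations. Then `W = (X 0 × X 1) / G` has
degree `r(∅) = p = s 0 + s 1`, `κ(W) = 1` and no canonical forms.

The Lean theorem is more general, as the condition need only hold for blocks of factors. The factors
are divided into blocks `b = t` for a function `b` to the natural numbers. Let `A` be a nonempty set
of factors in the block `t`, and let `b ≤ t` be the union of the blocks up to `t`. The condition is

`2 r((b ≤ t) ∖ A) ≤ r(b ≤ t) * (1 + ∑ i ∈ A, (s i - 1))`,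

except possibly for `A = {j}` where `X j` is a curve in the last block. If all blocks have one element
then this is the condition of `MP_c2a5fc_ag.ProductsAndEllipticCurves`: the number of points of `X i`
below a general point of the image of `V` in the product of `W` and of the previous factors is at most
`s i / 2`. A curve which is alone in the last block may be arbitrary, also rational (`s j = 0`).

There is no condition on the irregularity of `W` or of the `X i`.

Proof. If `f i` are canonical forms on the `X i` then the trace on `W` of the product of their pullbacks
is a canonical form on `W`. Suppose that two generic points `P` and `Q` of `W` have the same image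
under the rational map which is given by these traces. This is a relation between the values of the
products at the points of the two fibres. Let `v` be one of the points over `P`. By the theorem of Hall
the counting condition says that every other point of the two fibres can be assigned to a factor in
which its coordinate is different from the one of `v`, such that at most `s i - 1` points (or classes
of points with the same coordinates) are assigned to `X i`. So there is a product of canonical forms,
with coefficients in a larger field, which vanishes at all points but `v`, unless `v` is also a point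
over `Q`. Hence the coordinates in the `X i`, and so all functions, are algebraic over the field of the
ratios of the traces, and by Galois theory they even generate the function field of `W`. If `X j` is a
curve for which the condition fails then the other coordinates can be eliminated in the same way, since
the other inequalities imply the necessary ones for the images of `V` in the product of `W` and the
`X i`, `i ≠ j`. Then the coordinates in the `X i`, `i ≠ j`, are algebraic over the field of the ratios,
or all differentials of the curve `X j` have trace zero on the image of `{x} × X j` in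
`W × ∏ i ≠ j, X i`, and this image is a rational curve. If the canonical map of `W` is not generically
finite then the traces of the differentials on these curves are multiples of one of them, so the curves
are rational or elliptic and their images cover `W`; then `W` is not of general type.

The parts of the Lean proof on pull-backs, products, the geometric generic fibre, the
correspondences on rational curves and the traces on the fibres are from the starting files (`N145/SX`
and the files which it imports; helpers 123, 221, 442, 160, 279, 603, 545, 281, 438, 277, 999, 297,
273, 459 and 145), and the case of an exceptional curve is an adaptation of the proofs there.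
-/

set_option autoImplicit false
set_option linter.overlappingInstances false
set_option maxHeartbeats 4000000
set_option synthInstance.maxHeartbeats 400000

open FF Module IntermediateField Pool.Agent Pool.Agent.W602.GT
open Pool.Agent.W619.PQ (IsUniruled)

namespace Pool.Agent.Results.MP_c2a5fc_ag.SpreadFibresAbundanceH74

/-- **The canonical forms separate `r` points.** `E` is the function field of a variety `X` of
dimension `m`, and `D` a rational frame of the tangent bundle. The embeddings `σ : E → Ω` are the
generic points of `X` with coordinates in the field `Ω`. At most `r` different such points impose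
independent conditions on the canonical forms `ω` which are regular at all prime divisors: if
`∑ c σ * σ (ω D) = 0` for all `ω` then all the coefficients `c σ` are zero. -/
def SeparatesPoints (E : Type) [Field E] [Algebra ℂ E] (m r : ℕ) : Prop :=
  ∀ D : Fin m → Derivation ℂ E E, LinearIndependent E D →
    ∀ (Ω : Type) [Field Ω] [Algebra ℂ Ω] [IsAlgClosed Ω] (A : Finset (E →ₐ[ℂ] Ω)), A.card ≤ r →
    ∀ c : (E →ₐ[ℂ] Ω) → Ω,
    (∀ ω : (Fin m → Derivation ℂ E E) → E, IsPluri 1 ω →
      (∀ P : Place ℂ E, Divisorial m P → RegAt P ω) → ∑ σ ∈ A, c σ * σ (ω D) = 0) →
    ∀ σ ∈ A, c σ = 0

variable {K : Type} [Field K] [Algebra ℂ K] {k : ℕ}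

/-- The number of points of a general fibre of `V ⇢ W` which have the same coordinates in the factors
in `S` as a given point of the fibre. Here `K` and `L` are the function fields of `V` and `W`, and
`F i` is the one of the factor `X i`: it is the degree of `K` over the field which is generated over
`L` by the `F i`, `i ∈ S`. -/
noncomputable def agree (F : Fin (k + 1) → IntermediateField ℂ K) (L : Type) [Field L]
    [Algebra L K] (S : Set (Fin (k + 1))) : ℕ :=
  finrank (IntermediateField.adjoin L {z | ∃ i ∈ S, z ∈ F i}) K

/-- **The counting condition** with the factor `c`, for the dimensions `m i`, the numbers `s i` of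
points and the blocks `b = t`. -/
def IsSpread (F : Fin (k + 1) → IntermediateField ℂ K) (L : Type) [Field L]
    [Algebra L K] (m s b : Fin (k + 1) → ℕ) (c : ℕ) : Prop :=
  ∀ (t : ℕ) (A : Finset (Fin (k + 1))), A.Nonempty → (∀ i ∈ A, b i = t) →
    c * agree F L {i | b i ≤ t ∧ i ∉ A} ≤ agree F L {i | b i ≤ t} * (1 + ∑ i ∈ A, (s i - 1)) ∨
    ∃ j, A = {j} ∧ m j = 1 ∧ ∀ i, b i ≤ b j

/-- The image of the canonical map of the varieties with function field `L`, of dimension `w`, has
dimension at least `j`: there are canonical forms, regular at all prime divisors, whose ratios contain
`j` algebraically independent functions. (For pluricanonical forms this is `KodGe`.) -/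
def CanonicalImageGe (L : Type) [Field L] [Algebra ℂ L] (w j : ℕ) : Prop :=
  ∃ ω : Fin (j + 1) → (Fin w → Derivation ℂ L L) → L,
    (∀ i, IsPluri 1 (ω i) ∧ ∀ P : Place ℂ L, Divisorial w P → RegAt P (ω i)) ∧
    ∃ D, ω 0 D ≠ 0 ∧ AlgebraicIndependent ℂ (fun i : Fin j => ω i.succ D / ω 0 D)

/-- The canonical map of the varieties with function field `L`, of dimension `w`, is birational onto
its image: the ratios of the canonical forms, regular at all prime divisors, generate `L`. -/
def CanonicalMapBirational (L : Type) [Field L] [Algebra ℂ L] (w : ℕ) : Prop :=
  IntermediateField.adjoin ℂ {z : L | ∃ (ω ω' : (Fin w → Derivation ℂ L L) → L)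
    (D : Fin w → Derivation ℂ L L), (IsPluri 1 ω ∧ ∀ P : Place ℂ L, Divisorial w P → RegAt P ω) ∧
    (IsPluri 1 ω' ∧ ∀ P : Place ℂ L, Divisorial w P → RegAt P ω') ∧ ω' D ≠ 0 ∧
    z = ω D / ω' D} = ⊤

/-- The curve with the function field `F` over the algebraically closed field `Λ` is rational, i.e.
`F = Λ(t)`, or elliptic, i.e. it has a vector field `D` without zeros and poles: `D t` is a unit
for the uniformizers `t` at all points `w`. -/
def IsRationalOrElliptic (Λ F : Type) [Field Λ] [Field F] [Algebra Λ F] : Prop :=
  (∃ t : F, Λ⟮t⟯ = ⊤) ∨ ∃ D : Derivation Λ F F, ∀ (w : Place Λ F) (t : F), w.ord t = 1 →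
    D t ≠ 0 ∧ w.ord (D t) = 0

/-- The variety with the function field `L`, of dimension `n + 1`, is covered by an `n`-dimensional
family of rational or elliptic curves: there are an algebraically closed field `Λ` of transcendence
degree `n` (the algebraic closure of the function field of the base of the family) and a curve over
`Λ` with function field `F` (the geometric generic curve of the family), which is rational or
elliptic, and an embedding of `L` into `F` (the dominant map from the total space to `W`). -/
def IsCoveredByRationalOrElliptic (L : Type) [Field L] [Algebra ℂ L] (n : ℕ) : Prop :=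
  ∃ (Λ F : Type) (_ : Field Λ) (_ : Field F) (_ : Algebra ℂ Λ) (_ : Algebra ℂ F)
    (_ : Algebra Λ F) (_ : IsScalarTower ℂ Λ F) (_ : IsAlgClosed Λ) (_ : IsFF Λ F),
    Algebra.trdeg ℂ Λ = n ∧ IsRationalOrElliptic Λ F ∧ Nonempty (L →ₐ[ℂ] F)

theorem glo_iff {Λ F : Type} [Field Λ] [Field F] [Algebra Λ F] [CharZero Λ] [IsAlgClosed Λ]
    [IsFF Λ F] : N145.SX.GLO Λ F ↔ IsRationalOrElliptic Λ F := by
  unfold IsRationalOrElliptic
  simp only [N145.SX.flat_iff]
  exact ⟨N145.SX.flat_of_glo, N145.SX.glo_of_flat⟩

theorem cover_iff (L : Type) [Field L] [Algebra ℂ L] (n : ℕ) :
    N145.SX.Cov1 L n ↔ IsCoveredByRationalOrElliptic L n := by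
  constructor
  · rintro ⟨Λ, F, i1, i2, i3, i4, i5, i6, i7, i8, h1, h2, h3⟩
    have hch : CharZero Λ := charZero_of_injective_algebraMap (algebraMap ℂ Λ).injective
    exact ⟨Λ, F, i1, i2, i3, i4, i5, i6, i7, i8, h1, glo_iff.1 h2, h3⟩
  · rintro ⟨Λ, F, i1, i2, i3, i4, i5, i6, i7, i8, h1, h2, h3⟩
    have hch : CharZero Λ := charZero_of_injective_algebraMap (algebraMap ℂ Λ).injective
    exact ⟨Λ, F, i1, i2, i3, i4, i5, i6, i7, i8, h1, glo_iff.2 h2, h3⟩

/-- **The Kodaira dimension of varieties dominated by a product of varieties.** Let `K` be the
function field of the product `V` of the varieties `X i`, `i ≤ k`, with the function fields `F i`, of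
dimension `m i`, i.e. `K` is the compositum and its transcendence degree is `∑ m i = n + 1`. Let
`L ⊆ K` be the function field of a variety `W` such that the extension is finite. Suppose that the
canonical forms of `X i` separate `s i` points, where `s i > 0`, except possibly if `X i` is a curve
which is alone in the last block, and that the counting condition with the factor `2` holds. Then:
* `K_W` is not pseudo-effective if and only if `κ(W) = -∞`, if and only if `W` is uniruled;
* `κ(W) = n = dim W - 1` if and only if `W` is not uniruled, but covered by rational or elliptic
  curves;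
* `W` is of general type if and only if the canonical map of `W` is generically finite, if and only
  if `W` is not covered by rational or elliptic curves;
* `κ(W) ≥ j` if and only if the image of the canonical map has dimension at least `j`, for all
  `j ≥ 0`;
* if the counting condition also holds for the curves in the last block then the canonical map is
  birational onto its image. -/
theorem result [Algebra.EssFiniteType ℂ K] (m s b : Fin (k + 1) → ℕ) (n : ℕ)
    (hn : ∑ i, m i = n + 1)
    (F : Fin (k + 1) → IntermediateField ℂ K) [∀ i, Algebra.EssFiniteType ℂ (F i)]
    (hF : ⨆ i, F i = ⊤) (hm : ∀ i, Algebra.trdeg ℂ (F i) = m i)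
    (hK : Algebra.trdeg ℂ K = (∑ i, m i : ℕ)) (L : Type) [Field L] [Algebra ℂ L]
    [Algebra L K] [IsScalarTower ℂ L K] [FiniteDimensional L K]
    (hs : ∀ i, 1 ≤ s i ∨ (m i = 1 ∧ ∀ j, j ≠ i → b j < b i))
    (hX : ∀ i, SeparatesPoints (F i) (m i) (s i)) (hW : IsSpread F L m s b 2) :
    [¬ Psef ℂ L (n + 1) (fun _ => False), ¬ KodGe ℂ L (n + 1) (fun _ => False) 0,
      IsUniruled ℂ L (n + 1)].TFAE ∧
    ((KodGe ℂ L (n + 1) (fun _ => False) n ∧ ¬ KodGe ℂ L (n + 1) (fun _ => False) (n + 1)) ↔
      (¬ IsUniruled ℂ L (n + 1) ∧ IsCoveredByRationalOrElliptic L n)) ∧
    [GeneralType ℂ L (n + 1), CanonicalImageGe L (n + 1) (n + 1),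
      ¬ IsCoveredByRationalOrElliptic L n].TFAE ∧
    (∀ j : ℕ, KodGe ℂ L (n + 1) (fun _ => False) j ↔ CanonicalImageGe L (n + 1) j) ∧
    ((∀ j, m j = 1 → (∀ i, b i ≤ b j) → 2 * agree F L {i | i ≠ j} ≤ s j) →
      CanonicalMapBirational L (n + 1)) := by
  have hL : Algebra.trdeg ℂ L = (n + 1 : ℕ) := by
    have h := Pool.Agent.Y184.NT.trdeg_below (K := K) (L := L) hK
    rwa [hn] at h
  choose x D hx hD using fun i => Pool.Agent.Y172.exists_crd (hm i)
  have hsep : ∀ i, N145.SX.SepX (x i) (fun _ => False) (s i + 1) := fun i =>
    N145.SX.sepX_of' (hx i) (hD i) fun Ω _ _ _ A hA c hc =>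
      hX i (D i) (N145.SX.dual_indep (hD i)) Ω A hA c hc
  obtain ⟨h1, h2, h3⟩ := V7H74.HL.two_all (L := L) hF hm hn hK hx hs hsep hW
  rw [cover_iff] at h2
  have a1 : Psef ℂ L (n + 1) (fun _ => False) ↔ ¬ IsUniruled ℂ L (n + 1) := h1.out 0 2
  have a2 : KodGe ℂ L (n + 1) (fun _ => False) n ↔ ¬ IsUniruled ℂ L (n + 1) := h1.out 1 2
  have a3 : KodGe ℂ L (n + 1) (fun _ => False) (n + 1) ↔
      ¬ IsCoveredByRationalOrElliptic L n := h2.out 0 2
  refine ⟨?_, ?_, ?_, h3, fun h => ?_⟩
  · tfae_have 1 ↔ 3 := by
      rw [a1, not_not]
    tfae_have 2 → 1 := fun h h' =>
      h ((h3 0).2 (N145.SX.canGe_mono (Nat.zero_le _) ((h3 _).1 (a2.2 (a1.1 h')))))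
    tfae_have 1 → 2 := fun h h' => h (N145.PL.psef_of_kodGe' h')
    tfae_finish
  · rw [a2, a3, not_not]
  · rwa [N145.SX.kodGe_iff hL] at h2
  · obtain ⟨h4, h5⟩ := V7H74.HL.blk_noexc (F := F) (L := L) hs one_le_two hW h
    have h6 := V7H74.HL.all_bir (L := L) (b := b) hF hm hK hx h4 hsep h5
    rw [hn] at h6
    exact h6

end Pool.Agent.Results.MP_c2a5fc_ag.SpreadFibresAbundanceH74
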