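import Pool.Agent.V7H50.Main

/-! Abundance for quotients of products of a variety and curves: a criterion with ages and
volumes. -/

set_option autoImplicit false
set_option linter.overlappingInstances false

universe u

open FF IntermediateField Pool.Agent.W619.PQ Pool.Agent.W619.TW Pool.Agent.W619.Y
  Pool.Agent.V7H50

namespace Pool.Agent.Results.MP_c2a5fc_ag.VolumeAgeAbundanceH50

/-- Let `Y` be a projective variety of dimension `d` with function field `M` (for instance a
point), `F i` (`i < n`) the function fields of irrational curves `C i`, `L` the function field of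
the product `Z` of `Y` and the curves, `G` a finite group of automorphisms of `L` which permutes the
curves through `σ`, and `X` a projective manifold birational to `Z / G`. Assume `NumCondPos`: the
elements of `G` with fixed points have age at least `1` (corrected by effective divisors `ν i` on
the curves), except at finitely many strata whose total volume is smaller than the product of the
numbers `N (2 g_i - 2) - deg (ν i)`. If the Kodaira dimension of `Y` is at least `a` and its
numerical dimension is at most `a`, then the Kodaira dimension of `X` is at least `a + b` and its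
numerical dimension is at most `a + b`, where `b` is the number of the curves of genus at least
two. -/
theorem result {L : Type u} [Field L] [Algebra ℂ L] (d n : ℕ)
    (hn : Algebra.trdeg ℂ L = (d + n : ℕ))
    (M : IntermediateField ℂ L) [Algebra.EssFiniteType ℂ M] (hM : Algebra.trdeg ℂ M = d)
    (F : Fin n → IntermediateField ℂ L) (hF : ∀ i, IsFF ℂ (F i))
    (hsup : M ⊔ (⨆ i, F i) = ⊤)
    (G : Subgroup (L ≃ₐ[ℂ] L)) [Finite G] (σ : G →* Equiv.Perm (Fin n))
    (hσ : ∀ (g : G) i, ∀ z ∈ F i, (g : L ≃ₐ[ℂ] L) z ∈ F (σ g i))
    (h : NumCondPos M G σ F) (hirr : ∀ i, ¬ ∃ t : F i, ℂ⟮t⟯ = ⊤) (a : ℕ)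
    (ha : KodTr ℂ M d a) (ha' : NumLe ℂ M d (fun _ => False) a) :
    KodTr ℂ (fixedField G) (d + n) (a + {i | ¬ IsElliptic (F i)}.ncard) ∧
    KodGe ℂ (fixedField G) (d + n) (fun _ => False) (a + {i | ¬ IsElliptic (F i)}.ncard) ∧
    NumLe ℂ (fixedField G) (d + n) (fun _ => False) (a + {i | ¬ IsElliptic (F i)}.ncard) := by
  obtain ⟨h1, h2⟩ := abN d n hn M hM F (Pool.Agent.W619.Y.alg_of_top M F hsup) G σ hσ h
  exact ⟨(h1 hirr a ha).1, (h1 hirr a ha).2, (h2 hsup).1 hirr a ha'⟩

end Pool.Agent.Results.MP_c2a5fc_ag.VolumeAgeAbundanceH50
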